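import Pool.Agent.W2helper18.KG.Stm

/-!
# Project KG (MP_33a4a7_nt), piece KER (helper82)
-/

set_option autoImplicit false

open MeasureTheory Finset Filter

namespace Pool.Agent.W2helper82.KG

open Pool.Agent.W2helper18.KG

theorem theta_bounds (p : ℕ) (hp : 2 ≤ p) :
    0 ≤ (p : ℝ) ^ (-(3 / 8) : ℝ) ∧ (p : ℝ) ^ (-(3 / 8) : ℝ) ≤ 4 / 5 := by
  have hp' : (2 : ℝ) ≤ p := by exact_mod_cast hp
  refine ⟨Real.rpow_nonneg (by linarith) _, ?_⟩
  have h1 : (p : ℝ) ^ (-(3 / 8) : ℝ) ≤ (2 : ℝ) ^ (-(3 / 8) : ℝ) :=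
    Real.rpow_le_rpow_of_nonpos (by norm_num) hp' (by norm_num)
  refine h1.trans ?_
  have h2 : (4 / 5 : ℝ) = ((4 / 5 : ℝ) ^ (8 : ℕ)) ^ ((1 : ℝ) / 8) := by
    rw [← Real.rpow_natCast, ← Real.rpow_mul (by norm_num)]
    norm_num
  have h3 : (2 : ℝ) ^ (-(3 / 8) : ℝ) = ((1 / 8 : ℝ)) ^ ((1 : ℝ) / 8) := by
    rw [show (1 / 8 : ℝ) = (2 : ℝ) ^ (-3 : ℝ) by
      rw [Real.rpow_neg (by norm_num)]
      norm_num, ← Real.rpow_mul (by norm_num)]
    norm_num
  rw [h2, h3]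
  exact Real.rpow_le_rpow (by norm_num) (by norm_num) (by norm_num)

theorem theta_four (p : ℕ) : ((p : ℝ) ^ (-(3 / 8) : ℝ)) ^ 4 = (p : ℝ) ^ (-(3 / 2) : ℝ) := by
  rw [← Real.rpow_natCast, ← Real.rpow_mul (Nat.cast_nonneg p)]
  norm_num

/-- the product over the primes -/
theorem prod_theta (Q : Finset ℕ) (v w : ℕ) (hv : 0 < v) (hw : 0 < w)
    (hQv : v.primeFactors ⊆ Q) (hQw : w.primeFactors ⊆ Q) :
    ∏ p ∈ Q, ((p : ℝ) ^ (-(3 / 8) : ℝ)) ^
        ((v.factorization p - w.factorization p) + (w.factorization p - v.factorization p)) =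
      ((((v / Nat.gcd v w) * (w / Nat.gcd v w) : ℕ) : ℝ) ^ (-(3 / 8) : ℝ)) := by
  set g := Nat.gcd v w with hg
  have hgpos : 0 < g := Nat.gcd_pos_of_pos_left w hv
  have hgv : g ∣ v := Nat.gcd_dvd_left v w
  have hgw : g ∣ w := Nat.gcd_dvd_right v w
  have hvg : v / g ≠ 0 := (Nat.div_pos (Nat.le_of_dvd hv hgv) hgpos).ne'
  have hwg : w / g ≠ 0 := (Nat.div_pos (Nat.le_of_dvd hw hgw) hgpos).ne'
  set N := (v / g) * (w / g) with hN
  have hN0 : N ≠ 0 := Nat.mul_ne_zero hvg hwg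
  have hfac : ∀ p, N.factorization p =
      (v.factorization p - w.factorization p) + (w.factorization p - v.factorization p) := by
    intro p
    rw [hN, Nat.factorization_mul hvg hwg, Nat.factorization_div hgv, Nat.factorization_div hgw, hg,
      Nat.factorization_gcd hv.ne' hw.ne']
    simp only [Finsupp.coe_add, Finsupp.coe_tsub, Pi.add_apply, Pi.sub_apply, Finsupp.inf_apply]
    omega
  have hNprod : N = ∏ p ∈ Q, p ^ N.factorization p := by
    conv_lhs => rw [← Nat.prod_factorization_pow_eq_self hN0]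
    refine Finsupp.prod_of_support_subset _ ?_ _ (fun p _ => pow_zero p)
    intro p hp
    have hp' : N.factorization p ≠ 0 := Finsupp.mem_support_iff.1 hp
    rw [hfac] at hp'
    by_cases h : v.factorization p = 0
    · have h2 : w.factorization p ≠ 0 := by omega
      exact hQw (by rw [← Nat.support_factorization]; exact Finsupp.mem_support_iff.2 h2)
    · exact hQv (by rw [← Nat.support_factorization]; exact Finsupp.mem_support_iff.2 h)
  have hcast : (N : ℝ) = ∏ p ∈ Q, ((p : ℝ) ^ N.factorization p) := by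
    conv_lhs => rw [hNprod]
    push_cast
    rfl
  rw [hcast, ← Real.finsetProd_rpow _ _ (fun p _ => by positivity)]
  refine Finset.prod_congr rfl fun p hp => ?_
  rw [← hfac p, ← Real.rpow_natCast, ← Real.rpow_mul (Nat.cast_nonneg p), ← Real.rpow_natCast,
    ← Real.rpow_mul (Nat.cast_nonneg p), mul_comm]

theorem p_ker : P_LOC → P_TEN → P_KER := by
  intro hloc hten
  have hsum : Summable (fun n : ℕ => (n : ℝ) ^ (-(3 / 2) : ℝ)) :=
    Real.summable_nat_rpow.2 (by norm_num)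
  refine ⟨Real.exp (10 ^ 9 * ∑' n : ℕ, (n : ℝ) ^ (-(3 / 2) : ℝ)), Real.exp_pos _, ?_⟩
  intro F hF s hs
  set Q : Finset ℕ := F.biUnion fun q => q.primeFactors with hQdef
  have hQ : ∀ p ∈ Q, p.Prime := by
    intro p hp
    obtain ⟨q, _, hq⟩ := mem_biUnion.1 hp
    exact Nat.prime_of_mem_primeFactors hq
  have hsub : ∀ q ∈ F, q.primeFactors ⊆ Q := fun q hq => subset_biUnion_of_mem _ hq
  have hinj : ∀ v ∈ F, ∀ v' ∈ F, (∀ p ∈ Q, v.factorization p = v'.factorization p) → v = v' := by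
    intro v hv v' hv' h
    refine Nat.eq_of_factorization_eq (hF v hv).ne' (hF v' hv').ne' fun p => ?_
    by_cases hp : p ∈ Q
    · exact h p hp
    · have h1 : v.factorization p = 0 := by
        by_contra h0
        exact hp (hsub v hv (by rw [← Nat.support_factorization]; exact Finsupp.mem_support_iff.2 h0))
      have h2 : v'.factorization p = 0 := by
        by_contra h0
        exact hp (hsub v' hv' (by rw [← Nat.support_factorization]; exact Finsupp.mem_support_iff.2 h0))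
      rw [h1, h2]
  have h := hten Q (fun p => (p : ℝ) ^ (-(3 / 8) : ℝ))
    (fun p => 1 + 10 ^ 9 * ((p : ℝ) ^ (-(3 / 8) : ℝ)) ^ 4)
    (fun p hp => by
      obtain ⟨h1, h2⟩ := theta_bounds p (hQ p hp).two_le
      exact ⟨h1, by positivity, hloc _ h1 h2⟩)
    F F (fun v p => v.factorization p) hinj hinj s s hs hs
  have hA : 0 ≤ ∑ v ∈ F, s v ^ 4 := Finset.sum_nonneg fun v _ => by positivity
  rw [Real.sqrt_mul_self hA] at h
  have hprod : ∏ p ∈ Q, (1 + 10 ^ 9 * ((p : ℝ) ^ (-(3 / 8) : ℝ)) ^ 4) ≤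
      Real.exp (10 ^ 9 * ∑' n : ℕ, (n : ℝ) ^ (-(3 / 2) : ℝ)) := by
    calc ∏ p ∈ Q, (1 + 10 ^ 9 * ((p : ℝ) ^ (-(3 / 8) : ℝ)) ^ 4)
        ≤ ∏ p ∈ Q, Real.exp (10 ^ 9 * (p : ℝ) ^ (-(3 / 2) : ℝ)) := by
          refine Finset.prod_le_prod (fun p _ => by positivity) fun p _ => ?_
          rw [theta_four, add_comm]
          exact Real.add_one_le_exp _
      _ = Real.exp (10 ^ 9 * ∑ p ∈ Q, (p : ℝ) ^ (-(3 / 2) : ℝ)) := by
          rw [← Real.exp_sum, Finset.mul_sum]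
      _ ≤ Real.exp (10 ^ 9 * ∑' n : ℕ, (n : ℝ) ^ (-(3 / 2) : ℝ)) := by
          refine Real.exp_le_exp.2 (mul_le_mul_of_nonneg_left ?_ (by norm_num))
          exact hsum.sum_le_tsum _ (fun n _ => Real.rpow_nonneg (Nat.cast_nonneg n) _)
  calc ∑ q ∈ F, ∑ r ∈ F, s q ^ 3 * s r ^ 3 *
      ((((q / Nat.gcd q r) * (r / Nat.gcd q r) : ℕ) : ℝ) ^ (-(3 / 8) : ℝ))
      = ∑ v ∈ F, ∑ w ∈ F, (∏ p ∈ Q, ((p : ℝ) ^ (-(3 / 8) : ℝ)) ^
          ((v.factorization p - w.factorization p) + (w.factorization p - v.factorization p))) *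
            s v ^ 3 * s w ^ 3 := by
        refine Finset.sum_congr rfl fun v hv => Finset.sum_congr rfl fun w hw => ?_
        rw [prod_theta Q v w (hF v hv) (hF w hw) (hsub v hv) (hsub w hw)]
        ring
    _ ≤ (∏ p ∈ Q, (1 + 10 ^ 9 * ((p : ℝ) ^ (-(3 / 8) : ℝ)) ^ 4)) *
          Real.sqrt (∑ v ∈ F, s v ^ 4) ^ 3 := h
    _ ≤ Real.exp (10 ^ 9 * ∑' n : ℕ, (n : ℝ) ^ (-(3 / 2) : ℝ)) *
          Real.sqrt (∑ v ∈ F, s v ^ 4) ^ 3 :=
        mul_le_mul_of_nonneg_right hprod (by positivity)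

end Pool.Agent.W2helper82.KG
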