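import Pool.Agent.W2helper18.KG.Stm

/-!
# Project KG (MP_33a4a7_nt), pieces LNK and CNT (helper82)
-/

set_option autoImplicit false

open MeasureTheory Finset Filter

namespace Pool.Agent.W2helper82.KG

open Pool.Agent.W2helper18.KG

theorem p_lnk : P_LNK := by
  intro q r hq hr y δ s t h
  set g := Nat.gcd q r with hg
  have hgpos : 0 < g := Nat.gcd_pos_of_pos_left r hq
  have hgq : g ∣ q := Nat.gcd_dvd_left q r
  have hgr : g ∣ r := Nat.gcd_dvd_right q r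
  have hq' : (0 : ℝ) < q := by exact_mod_cast hq
  have hr' : (0 : ℝ) < r := by exact_mod_cast hr
  have hg' : (0 : ℝ) < g := by exact_mod_cast hgpos
  have hL : (g : ℝ) * (Nat.lcm q r : ℕ) = q * r := by
    exact_mod_cast Nat.gcd_mul_lcm q r
  have hLpos : (0 : ℝ) < (Nat.lcm q r : ℕ) := by exact_mod_cast Nat.lcm_pos hq hr
  have e1 : ((r / g : ℕ) : ℝ) = (Nat.lcm q r : ℕ) / q := by
    rw [Nat.cast_div hgr hg'.ne', div_eq_div_iff hg'.ne' hq'.ne']
    linarith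
  have e2 : ((q / g : ℕ) : ℝ) = (Nat.lcm q r : ℕ) / r := by
    rw [Nat.cast_div hgq hg'.ne', div_eq_div_iff hg'.ne' hr'.ne']
    linarith
  set x : ℝ := ((s : ℝ) + y) / q - ((t : ℝ) + y) / r with hx
  have hnorm : dist (cc q s y) (cc r t y) = |x - round x| := by
    rw [dist_eq_norm]
    unfold cc
    rw [← AddCircle.coe_sub, UnitAddCircle.norm_eq]
  rw [hnorm] at h
  refine ⟨-(((r / g : ℕ) : ℤ) * s - ((q / g : ℕ) : ℤ) * t - round x * (Nat.lcm q r : ℕ)),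
    round x, ?_, by ring⟩
  have e3 : (((r / g : ℕ) : ℝ) - ((q / g : ℕ) : ℝ)) * y -
      ((-(((r / g : ℕ) : ℤ) * s - ((q / g : ℕ) : ℤ) * t - round x * (Nat.lcm q r : ℕ)) : ℤ) : ℝ) =
      (Nat.lcm q r : ℕ) * (x - round x) := by
    simp only [Int.cast_neg, Int.cast_sub, Int.cast_mul, Int.cast_natCast]
    have e4 : ((Nat.lcm q r : ℕ) : ℝ) * x = ((r / g : ℕ) : ℝ) * (s + y) -
        ((q / g : ℕ) : ℝ) * (t + y) := by
      rw [e1, e2, hx]
      field_simp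
    rw [mul_sub, e4]
    ring
  rw [e3, abs_mul, abs_of_pos hLpos, mul_comm]
  exact mul_lt_mul_of_pos_right h hLpos

/-- the integers within `w` of `c` -/
theorem card_near (c w : ℝ) (hw : 0 < w) (K : Finset ℤ) (hK : ∀ k ∈ K, |c - k| < w) :
    (K.card : ℝ) < 2 * w + 1 := by
  have hsub : K ⊆ Finset.Icc (⌊c - w⌋ + 1) (⌈c + w⌉ - 1) := by
    intro k hk
    have h1 := abs_lt.1 (hK k hk)
    rw [Finset.mem_Icc]
    constructor
    · have h2 : ⌊c - w⌋ < k := Int.floor_lt.2 (by linarith)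
      omega
    · have h2 : k < ⌈c + w⌉ := Int.lt_ceil.2 (by linarith)
      omega
  have h1 := Finset.card_le_card hsub
  rw [Int.card_Icc] at h1
  have h2 : ⌊c - w⌋ + 1 ≤ ⌈c + w⌉ := by
    have : ⌊c - w⌋ < ⌈c + w⌉ := by
      rw [Int.lt_ceil]
      exact lt_of_le_of_lt (Int.floor_le _) (by linarith)
    omega
  have h3 : (K.card : ℤ) ≤ ⌈c + w⌉ - 1 - ⌊c - w⌋ := by
    have h4 : ((⌈c + w⌉ - 1 + 1 - (⌊c - w⌋ + 1)).toNat : ℤ) = ⌈c + w⌉ - 1 + 1 - (⌊c - w⌋ + 1) :=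
      Int.toNat_of_nonneg (by omega)
    have h5 : (K.card : ℤ) ≤ ((⌈c + w⌉ - 1 + 1 - (⌊c - w⌋ + 1)).toNat : ℤ) := by exact_mod_cast h1
    omega
  have h6 : (K.card : ℝ) ≤ (⌈c + w⌉ : ℝ) - 1 - ⌊c - w⌋ := by exact_mod_cast h3
  have h7 := Int.ceil_lt_add_one (c + w)
  have h8 := Int.lt_floor_add_one (c - w)
  linarith

theorem fibre_card (q r : ℕ) (hq : 0 < q) (k : ℤ) (S : Finset (ℕ × ℕ))
    (hS : ∀ p ∈ S, p.1 < q ∧ p.2 < r ∧ ∃ n : ℤ, ((r / Nat.gcd q r : ℕ) : ℤ) * p.1 -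
      ((q / Nat.gcd q r : ℕ) : ℤ) * p.2 - n * (Nat.lcm q r : ℕ) = -k) :
    S.card ≤ Nat.gcd q r := by
  set g := Nat.gcd q r with hg
  have hgpos : 0 < g := Nat.gcd_pos_of_pos_left r hq
  obtain ⟨q', hq'⟩ : g ∣ q := Nat.gcd_dvd_left q r
  obtain ⟨r', hr'⟩ : g ∣ r := Nat.gcd_dvd_right q r
  have eq' : q / g = q' := by
    rw [hq']; exact Nat.mul_div_cancel_left q' hgpos
  have er' : r / g = r' := by
    rw [hr']; exact Nat.mul_div_cancel_left r' hgpos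
  have hcop : Nat.Coprime q' r' := by
    have := Nat.coprime_div_gcd_div_gcd (m := q) (n := r) (hg ▸ hgpos)
    rwa [← hg, eq', er'] at this
  have hL : Nat.lcm q r = q' * r := by
    have h1 := Nat.gcd_mul_lcm q r
    rw [← hg] at h1
    have h2 : g * Nat.lcm q r = g * (q' * r) := by rw [h1, ← mul_assoc, ← hq']
    exact Nat.eq_of_mul_eq_mul_left hgpos h2
  have hq'pos : 0 < q' := Nat.pos_of_ne_zero fun h => by
    rw [h, mul_zero] at hq'; omega
  rw [eq', er', hL] at hS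
  have hmaps : ∀ p ∈ S, p.1 / q' ∈ range g := by
    intro p hp
    rw [mem_range, Nat.div_lt_iff_lt_mul hq'pos]
    have := (hS p hp).1
    rw [hq'] at this
    exact this
  have hinj : Set.InjOn (fun p : ℕ × ℕ => p.1 / q') (S : Set (ℕ × ℕ)) := by
    intro p hp p2 hp2 heq
    simp only at heq
    obtain ⟨h1, h2, n, hn⟩ := hS p hp
    obtain ⟨h3, h4, n2, hn2⟩ := hS p2 hp2
    have hdvd : (q' : ℤ) ∣ (r' : ℤ) * ((p.1 : ℤ) - p2.1) := by
      refine ⟨(p.2 : ℤ) - p2.2 + (n - n2) * r, ?_⟩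
      push_cast at hn hn2
      linear_combination hn - hn2
    have hdvd2 : (q' : ℤ) ∣ ((p.1 : ℤ) - p2.1) :=
      (Int.isCoprime_iff_gcd_eq_one.2 (by exact_mod_cast hcop)).dvd_of_dvd_mul_left hdvd
    have hs : (p.1 : ℤ) = p2.1 := by
      have hmod : (p.1 : ℤ) % q' = (p2.1 : ℤ) % q' :=
        Int.emod_eq_emod_iff_emod_sub_eq_zero.2 (Int.emod_eq_zero_of_dvd hdvd2)
      have hdiv : (p.1 : ℤ) / q' = (p2.1 : ℤ) / q' := by exact_mod_cast heq
      rw [← Int.emod_add_mul_ediv (p.1 : ℤ) q', ← Int.emod_add_mul_ediv (p2.1 : ℤ) q', hmod, hdiv]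
    have ht : (p.2 : ℤ) = p2.2 := by
      have h5 : (q' : ℤ) * ((p.2 : ℤ) - p2.2) = (q' : ℤ) * ((n2 - n) * r) := by
        push_cast at hn hn2
        rw [hs] at hn
        linear_combination hn2 - hn
      have h6 : (p.2 : ℤ) - p2.2 = (n2 - n) * r :=
        mul_left_cancel₀ (by exact_mod_cast hq'pos.ne') h5
      have h7 : |(p.2 : ℤ) - p2.2| < r := by
        rw [abs_lt]
        constructor <;> omega
      have h8 : (p.2 : ℤ) - p2.2 = 0 := Int.eq_zero_of_abs_lt_dvd ⟨n2 - n, by rw [h6]; ring⟩ h7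
      omega
    exact Prod.ext (by exact_mod_cast hs) (by exact_mod_cast ht)
  calc S.card = (S.image fun p : ℕ × ℕ => p.1 / q').card := (card_image_of_injOn hinj).symm
    _ ≤ (range g).card := card_le_card (image_subset_iff.2 hmaps)
    _ = g := card_range g

theorem p_cnt : P_LNK → P_CNT := by
  classical
  intro hlnk q r hq hr y δ hδ
  set S := (range q ×ˢ range r).filter fun p : ℕ × ℕ => dist (cc q p.1 y) (cc r p.2 y) < δ with hS
  have hex : ∀ p : ℕ × ℕ, ∃ k : ℤ, p ∈ S →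
      |(((r / Nat.gcd q r : ℕ) : ℝ) - ((q / Nat.gcd q r : ℕ) : ℝ)) * y - k| <
        δ * (Nat.lcm q r : ℕ) ∧ ∃ n : ℤ,
      ((r / Nat.gcd q r : ℕ) : ℤ) * p.1 - ((q / Nat.gcd q r : ℕ) : ℤ) * p.2 -
        n * (Nat.lcm q r : ℕ) = -k := by
    intro p
    by_cases hp : p ∈ S
    · obtain ⟨k, n, h1, h2⟩ := hlnk q r hq hr y δ p.1 p.2 (mem_filter.1 hp).2
      exact ⟨k, fun _ => ⟨h1, n, h2⟩⟩
    · exact ⟨0, fun h => absurd h hp⟩
  choose f hf using hex
  have hLpos : (0 : ℝ) < (Nat.lcm q r : ℕ) := by exact_mod_cast Nat.lcm_pos hq hr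
  have hK := card_near ((((r / Nat.gcd q r : ℕ) : ℝ) - ((q / Nat.gcd q r : ℕ) : ℝ)) * y)
    (δ * (Nat.lcm q r : ℕ)) (mul_pos hδ hLpos) (S.image f) (by
      intro k hk
      obtain ⟨p, hp, rfl⟩ := mem_image.1 hk
      exact (hf p hp).1)
  have hmul : S.card ≤ Nat.gcd q r * (S.image f).card := by
    refine card_le_mul_card_image_of_maps_to (fun p hp => mem_image_of_mem f hp) _ ?_
    intro k _
    refine fibre_card q r hq k _ fun p hp => ?_
    obtain ⟨hpS, hpk⟩ := mem_filter.1 hp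
    obtain ⟨h1, h2⟩ := mem_product.1 (mem_filter.1 hpS).1
    refine ⟨mem_range.1 h1, mem_range.1 h2, ?_⟩
    obtain ⟨n, hn⟩ := (hf p hpS).2
    exact ⟨n, by rw [hn, hpk]⟩
  have hgL : (Nat.gcd q r : ℝ) * (Nat.lcm q r : ℕ) = q * r := by exact_mod_cast Nat.gcd_mul_lcm q r
  refine ⟨fun h1 => ?_, fun h1 => ?_⟩
  · have h2 : ((S.image f).card : ℝ) ≤ 4 * δ * (Nat.lcm q r : ℕ) := by linarith
    calc (S.card : ℝ) ≤ (Nat.gcd q r : ℝ) * (S.image f).card := by exact_mod_cast hmul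
      _ ≤ (Nat.gcd q r : ℝ) * (4 * δ * (Nat.lcm q r : ℕ)) :=
          mul_le_mul_of_nonneg_left h2 (Nat.cast_nonneg _)
      _ = 4 * δ * q * r := by
          rw [show (Nat.gcd q r : ℝ) * (4 * δ * (Nat.lcm q r : ℕ)) =
            4 * δ * ((Nat.gcd q r : ℝ) * (Nat.lcm q r : ℕ)) by ring, hgL]
          ring
  · have h2 : ((S.image f).card : ℝ) < 2 := by linarith
    have h3 : (S.image f).card ≤ 1 := by
      have : (S.image f).card < 2 := by exact_mod_cast h2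
      omega
    calc S.card ≤ Nat.gcd q r * (S.image f).card := hmul
      _ ≤ Nat.gcd q r * 1 := Nat.mul_le_mul_left _ h3
      _ = Nat.gcd q r := mul_one _

end Pool.Agent.W2helper82.KG
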